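import Mathlib

/-! Powers of `s + t √(-a)` close to the real axis, with exponent in a given class. -/

set_option autoImplicit false

namespace Pool.Agent.H222R3.TV

open Complex

/-- the coordinates of `(s + t √(-a)) ^ n` -/
def zp (a s t : ℤ) : ℕ → ℤ × ℤ
  | 0 => (1, 0)
  | n + 1 => (s * (zp a s t n).1 - a * t * (zp a s t n).2, t * (zp a s t n).1 + s * (zp a s t n).2)

lemma zp_norm (a s t : ℤ) (n : ℕ) :
    (zp a s t n).1 ^ 2 + a * (zp a s t n).2 ^ 2 = (s ^ 2 + a * t ^ 2) ^ n := by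
  induction n with
  | zero => simp [zp]
  | succ n ih =>
    rw [pow_succ (s ^ 2 + a * t ^ 2) n, ← ih]
    simp only [zp]
    ring

lemma zp_congr (a s t : ℤ) (n : ℕ) : ∃ u v : ℤ,
    (zp a s t (n + 1)).1 = (2 * s) ^ n * s + (s ^ 2 + a * t ^ 2) * u ∧
    (zp a s t (n + 1)).2 = (2 * s) ^ n * t + (s ^ 2 + a * t ^ 2) * v := by
  induction n with
  | zero => exact ⟨0, 0, by simp [zp], by simp [zp]⟩
  | succ n ih =>
    obtain ⟨u, v, h1, h2⟩ := ih
    refine ⟨s * u - a * t * v - (2 * s) ^ n, t * u + s * v, ?_, ?_⟩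
    · have e : (zp a s t (n + 1 + 1)).1 =
          s * (zp a s t (n + 1)).1 - a * t * (zp a s t (n + 1)).2 := rfl
      rw [e, h1, h2]; ring
    · have e : (zp a s t (n + 1 + 1)).2 =
          t * (zp a s t (n + 1)).1 + s * (zp a s t (n + 1)).2 := rfl
      rw [e, h1, h2]; ring

lemma sqrtI_sq (a : ℕ) : (((Real.sqrt a : ℝ) : ℂ) * I) ^ 2 = -(a : ℂ) := by
  rw [mul_pow, I_sq]
  have h : ((Real.sqrt a : ℝ) : ℂ) ^ 2 = (a : ℂ) := by
    rw [← Complex.ofReal_pow, Real.sq_sqrt (Nat.cast_nonneg a)]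
    simp
  rw [h]; ring

/-- the complex number -/
noncomputable def zz (a s t : ℕ) : ℂ := (s : ℂ) + (t : ℂ) * (((Real.sqrt a : ℝ) : ℂ) * I)

lemma zp_complex (a s t n : ℕ) :
    (((zp a s t n).1 : ℤ) : ℂ) + (((zp a s t n).2 : ℤ) : ℂ) * (((Real.sqrt a : ℝ) : ℂ) * I) =
      zz a s t ^ n := by
  induction n with
  | zero => simp [zp]
  | succ n ih =>
    rw [pow_succ, ← ih]
    have h := sqrtI_sq a
    simp only [zp, zz]
    set w := ((Real.sqrt a : ℝ) : ℂ) * I with hw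
    push_cast
    linear_combination (-(t : ℂ) * ((zp a s t n).2 : ℂ)) * h

lemma zp_polar (a s t n : ℕ) :
    ((zp a s t n).1 : ℝ) = ‖zz a s t‖ ^ n * Real.cos (n * arg (zz a s t)) ∧
    ((zp a s t n).2 : ℝ) * Real.sqrt a = ‖zz a s t‖ ^ n * Real.sin (n * arg (zz a s t)) := by
  have h := zp_complex a s t n
  set z := zz a s t with hz
  have h2 : z ^ n = ((‖z‖ ^ n : ℝ) : ℂ) * Complex.exp (((n * arg z : ℝ) : ℂ) * I) := by
    conv_lhs => rw [← Complex.norm_mul_exp_arg_mul_I z]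
    rw [mul_pow, ← Complex.exp_nat_mul]
    push_cast
    rw [mul_assoc]
  rw [h2] at h
  have hre := congrArg Complex.re h
  have him := congrArg Complex.im h
  rw [Complex.re_ofReal_mul, Complex.exp_ofReal_mul_I_re] at hre
  rw [Complex.im_ofReal_mul, Complex.exp_ofReal_mul_I_im] at him
  constructor
  · rw [← hre]
    simp
  · rw [← him]
    simp

lemma not_dvd {a s t : ℕ} (hcop : Nat.Coprime (s ^ 2 + a * t ^ 2) (2 * s * t)) {l : ℕ}
    (hl : l.Prime) (hlN : l ∣ s ^ 2 + a * t ^ 2) (n : ℕ) :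
    ¬ (l : ℤ) ∣ (zp a s t (n + 1)).2 := by
  obtain ⟨u, v, -, h2⟩ := zp_congr a s t n
  rw [h2]
  intro hdvd
  have hlN' : (l : ℤ) ∣ ((s : ℤ) ^ 2 + a * t ^ 2) := by exact_mod_cast hlN
  have h3 : (l : ℤ) ∣ (2 * (s : ℤ)) ^ n * t :=
    (dvd_add_left (hlN'.mul_right v)).mp hdvd
  have hli : Prime (l : ℤ) := Nat.prime_iff_prime_int.mp hl
  have h4 : l ∣ 2 * s * t := by
    rcases hli.dvd_or_dvd h3 with h4 | h4
    · have h5 := hli.dvd_of_dvd_pow h4
      have h6 : l ∣ 2 * s := by exact_mod_cast h5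
      exact h6.mul_right t
    · have h6 : l ∣ t := by exact_mod_cast h4
      exact h6.mul_left (2 * s)
  exact hl.one_lt.ne' (Nat.eq_one_of_dvd_coprimes hcop hlN h4)

lemma irr {a s t : ℕ} (ha : 1 ≤ a) (hcop : Nat.Coprime (s ^ 2 + a * t ^ 2) (2 * s * t))
    (hN : 1 < s ^ 2 + a * t ^ 2) (m : ℕ) (hm : 1 ≤ m) :
    Irrational ((m * arg (zz a s t)) / Real.pi) := by
  rintro ⟨q, hq⟩
  set θ := arg (zz a s t) with hθ
  have hpi := Real.pi_pos
  have h1 : (m : ℝ) * θ = q * Real.pi := by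
    rw [hq]; field_simp
  have h2 : (q.den : ℝ) * q = q.num := by
    rw [mul_comm]; exact_mod_cast Rat.mul_den_eq_num q
  have h3 : ((m * q.den : ℕ) : ℝ) * θ = q.num * Real.pi := by
    push_cast
    calc (m : ℝ) * q.den * θ = q.den * (m * θ) := by ring
      _ = q.den * (q * Real.pi) := by rw [h1]
      _ = (q.den * q) * Real.pi := by ring
      _ = _ := by rw [h2]
  have hNpos : 0 < m * q.den := Nat.mul_pos hm q.den_pos
  obtain ⟨n, hn⟩ : ∃ n, m * q.den = n + 1 := ⟨m * q.den - 1, by omega⟩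
  rw [hn] at h3
  have h4 := (zp_polar a s t (n + 1)).2
  rw [← hθ, h3, Real.sin_int_mul_pi, mul_zero] at h4
  have hsq : Real.sqrt a ≠ 0 := by
    have : (0 : ℝ) < a := by exact_mod_cast ha
    exact (Real.sqrt_pos.mpr this).ne'
  have h5 : ((zp a s t (n + 1)).2 : ℝ) = 0 := by
    rcases mul_eq_zero.mp h4 with h | h
    · exact h
    · exact absurd h hsq
  have h6 : (zp a s t (n + 1)).2 = 0 := by exact_mod_cast h5
  obtain ⟨l, hl, hlN⟩ := Nat.exists_prime_and_dvd hN.ne'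
  apply not_dvd hcop hl hlN n
  rw [h6]
  exact dvd_zero _

theorem realize {a s t : ℕ} (ha : 1 ≤ a)
    (hcop : Nat.Coprime (s ^ 2 + a * t ^ 2) (2 * s * t))
    (hN : 1 < s ^ 2 + a * t ^ 2) (M0 : ℕ) (n j : ℤ)
    (hφ0 : 0 < n * arg (zz a s t) + j * Real.pi)
    (hφδ : n * arg (zz a s t) + j * Real.pi < 1 / (2 * M0 + 1)) :
    ∃ G1 G2 : ℕ, 1 ≤ G2 ∧ M0 * G2 ≤ G1 ∧ Nat.Coprime G1 G2 ∧
      G1 ^ 2 + a * G2 ^ 2 = (s ^ 2 + a * t ^ 2) ^ n.natAbs := by
  set θ := arg (zz a s t) with hθ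
  set δ : ℝ := 1 / (2 * M0 + 1) with hδ
  have hδpos : 0 < δ := by positivity
  have hδ1 : δ ≤ 1 := by
    rw [hδ, div_le_one (by positivity)]
    have : (0 : ℝ) ≤ M0 := by positivity
    linarith
  have hδM : M0 * δ ≤ 1 / 2 := by
    rw [hδ, mul_one_div, div_le_div_iff₀ (by positivity) (by norm_num)]
    linarith
  set φ : ℝ := n * θ + j * Real.pi with hφ
  set k := n.natAbs with hk
  set ε : ℤ := if 0 ≤ n then 1 else -1 with hε
  set σ : ℤ := if Even j then 1 else -1 with hσ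
  have hεk : (ε : ℝ) * (k : ℝ) = n := by
    rw [hε, hk]
    split_ifs with h
    · have h1 : ((n.natAbs : ℕ) : ℤ) = n := Int.natAbs_of_nonneg h
      have h2 : (((n.natAbs : ℕ) : ℤ) : ℝ) = (n : ℝ) := congrArg Int.cast h1
      rw [Int.cast_natCast] at h2
      rw [h2]; push_cast; ring
    · have h1 : ((n.natAbs : ℕ) : ℤ) = -n := Int.ofNat_natAbs_of_nonpos (by omega)
      have h2 : (((n.natAbs : ℕ) : ℤ) : ℝ) = ((-n : ℤ) : ℝ) := congrArg Int.cast h1
      rw [Int.cast_natCast] at h2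
      rw [h2]; push_cast; ring
  have hσz : ((-1 : ℝ)) ^ j = (σ : ℝ) := by
    rw [hσ]
    split_ifs with h
    · rw [Even.neg_one_zpow h]; simp
    · rw [Odd.neg_one_zpow (Int.not_even_iff_odd.mp h)]; simp
  have hσ2 : σ ^ 2 = 1 := by rw [hσ]; split_ifs <;> norm_num
  have hε2 : ε ^ 2 = 1 := by rw [hε]; split_ifs <;> norm_num
  have hεcases : ε = 1 ∨ ε = -1 := by rw [hε]; split_ifs <;> simp
  have hσcases : σ = 1 ∨ σ = -1 := by rw [hσ]; split_ifs <;> simp
  set ρ : ℝ := ‖zz a s t‖ with hρ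
  obtain ⟨hX, hY⟩ := zp_polar a s t k
  rw [← hθ, ← hρ] at hX hY
  have hcosn : Real.cos (k * θ) = Real.cos (n * θ) := by
    rw [← hεk]
    rcases hεcases with h | h
    · rw [h]; push_cast; rw [one_mul]
    · rw [h]; push_cast; rw [show (-1 : ℝ) * k * θ = -(k * θ) by ring, Real.cos_neg]
  have hsinn : (ε : ℝ) * Real.sin (k * θ) = Real.sin (n * θ) := by
    rw [← hεk]
    rcases hεcases with h | h
    · rw [h]; push_cast; rw [one_mul, one_mul]
    · rw [h]; push_cast; rw [show (-1 : ℝ) * k * θ = -(k * θ) by ring, Real.sin_neg]; ring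
  set g1 : ℤ := σ * (zp a s t k).1 with hg1
  set g2 : ℤ := σ * (ε * (zp a s t k).2) with hg2
  have hre : (g1 : ℝ) = ρ ^ k * Real.cos φ := by
    rw [hg1, hφ, Real.cos_add_int_mul_pi, hσz]
    push_cast
    rw [hX, hcosn]; ring
  have him : (g2 : ℝ) * Real.sqrt a = ρ ^ k * Real.sin φ := by
    rw [hg2, hφ, Real.sin_add_int_mul_pi, hσz, ← hsinn]
    push_cast
    calc (σ : ℝ) * (ε * ((zp a s t k).2 : ℝ)) * Real.sqrt a =
        σ * ε * (((zp a s t k).2 : ℝ) * Real.sqrt a) := by ring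
      _ = σ * ε * (ρ ^ k * Real.sin (k * θ)) := by rw [hY]
      _ = _ := by ring
  have hρpos : 0 < ρ := by
    rw [hρ, norm_pos_iff]
    intro h0
    have h1 := zp_complex a s t 1
    rw [pow_one, h0] at h1
    have h2 := zp_norm a s t 1
    have h3 := (zp_polar a s t 1)
    rw [h0] at h3
    simp only [norm_zero, pow_one, zero_mul] at h3
    have ha' : Real.sqrt a ≠ 0 := by
      have : (0 : ℝ) < a := by exact_mod_cast ha
      exact (Real.sqrt_pos.mpr this).ne'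
    have h4 : (zp a s t 1).1 = 0 := by exact_mod_cast h3.1
    have h5 : (zp a s t 1).2 = 0 := by
      rcases mul_eq_zero.mp h3.2 with h | h
      · exact_mod_cast h
      · exact absurd h ha'
    rw [h4, h5] at h2
    have h6 : ((s ^ 2 + a * t ^ 2 : ℕ) : ℤ) = 0 := by push_cast; linarith
    have h7 : s ^ 2 + a * t ^ 2 = 0 := by exact_mod_cast h6
    omega
  have hρk : 0 < ρ ^ k := pow_pos hρpos k
  have hsin0 : 0 < Real.sin φ := Real.sin_pos_of_pos_of_lt_pi hφ0 (by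
    have := Real.pi_gt_three
    linarith)
  have hsin1 : Real.sin φ < φ := Real.sin_lt hφ0
  have hcos : 1 / 2 ≤ Real.cos φ := by
    have := Real.one_sub_sq_div_two_le_cos (x := φ)
    nlinarith
  have ha1 : 1 ≤ Real.sqrt a := by
    rw [Real.one_le_sqrt]
    exact_mod_cast ha
  have himpos : 0 < g2 := by
    have h1 : 0 < (g2 : ℝ) * Real.sqrt a := by rw [him]; positivity
    have h2 : (0 : ℝ) < g2 := by
      by_contra hcon
      push Not at hcon
      nlinarith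
    exact_mod_cast h2
  have hrepos : 0 < g1 := by
    have : (0 : ℝ) < g1 := by rw [hre]; positivity
    exact_mod_cast this
  have hslope : (M0 : ℤ) * g2 ≤ g1 := by
    have : (M0 : ℝ) * g2 ≤ g1 := by
      have h0 : (0 : ℝ) < g2 := by exact_mod_cast himpos
      have h1 : (M0 : ℝ) * Real.sin φ ≤ M0 * δ := by
        apply mul_le_mul_of_nonneg_left _ (by positivity)
        linarith
      have h2 : (M0 : ℝ) * Real.sin φ ≤ Real.cos φ := by linarith
      calc (M0 : ℝ) * g2 ≤ M0 * (g2 * Real.sqrt a) := by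
            apply mul_le_mul_of_nonneg_left _ (by positivity)
            nlinarith
        _ = ρ ^ k * (M0 * Real.sin φ) := by rw [him]; ring
        _ ≤ ρ ^ k * Real.cos φ := mul_le_mul_of_nonneg_left h2 hρk.le
        _ = g1 := hre.symm
    exact_mod_cast this
  have hsum : g1 ^ 2 + a * g2 ^ 2 = ((s : ℤ) ^ 2 + a * t ^ 2) ^ k := by
    have h := zp_norm a s t k
    rw [← h, hg1, hg2]
    have e1 : (σ * (zp a s t k).1) ^ 2 + a * (σ * (ε * (zp a s t k).2)) ^ 2 =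
        σ ^ 2 * ((zp a s t k).1 ^ 2 + a * (ε ^ 2 * (zp a s t k).2 ^ 2)) := by ring
    rw [e1, hσ2, hε2]; ring
  have hre' : ((g1.toNat : ℕ) : ℤ) = g1 := Int.toNat_of_nonneg hrepos.le
  have him' : ((g2.toNat : ℕ) : ℤ) = g2 := Int.toNat_of_nonneg himpos.le
  have hsumN : g1.toNat ^ 2 + a * g2.toNat ^ 2 = (s ^ 2 + a * t ^ 2) ^ k := by
    zify
    rw [hre', him']
    exact hsum
  refine ⟨g1.toNat, g2.toNat, by omega, ?_, ?_, hsumN⟩
  · zify
    rw [hre', him']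
    exact hslope
  · apply Nat.coprime_of_dvd
    intro l hl h1 h2
    have h3 : l ∣ (s ^ 2 + a * t ^ 2) ^ k := by
      rw [← hsumN]
      exact dvd_add (dvd_pow h1 (by norm_num)) ((dvd_pow h2 (by norm_num)).mul_left a)
    have h4 : l ∣ s ^ 2 + a * t ^ 2 := hl.dvd_of_dvd_pow h3
    rcases Nat.eq_zero_or_pos k with hk0 | hk0
    · rw [hg2, hk0] at himpos
      simp [zp] at himpos
    · obtain ⟨k', hk'⟩ : ∃ k', k = k' + 1 := ⟨k - 1, by omega⟩
      apply not_dvd hcop hl h4 k'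
      rw [← hk']
      have h5 : (l : ℤ) ∣ g2 := by rw [← him']; exact_mod_cast h2
      rw [hg2] at h5
      rcases hσcases with h | h <;> rcases hεcases with h' | h' <;> rw [h, h'] at h5 <;>
        simpa using h5

theorem small_angle {a s t : ℕ} (ha : 1 ≤ a)
    (hcop : Nat.Coprime (s ^ 2 + a * t ^ 2) (2 * s * t))
    (hN : 1 < s ^ 2 + a * t ^ 2) (m M0 : ℕ) (hm : 1 ≤ m) :
    ∃ k G1 G2 : ℕ, 1 ≤ G2 ∧ M0 * G2 ≤ G1 ∧ Nat.Coprime G1 G2 ∧
      G1 ^ 2 + a * G2 ^ 2 = (s ^ 2 + a * t ^ 2) ^ k ∧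
      ∃ i : ℤ, (k : ℤ) = i * m + 1 ∨ (k : ℤ) = -(i * m + 1) := by
  set θ := arg (zz a s t) with hθ
  have hirr := irr ha hcop hN m hm
  have hdense := dense_addSubgroupClosure_pair_iff.mpr hirr
  set δ : ℝ := 1 / (2 * M0 + 1) with hδ
  have hδpos : 0 < δ := by positivity
  obtain ⟨x, hxI, hxc⟩ := hdense.inter_open_nonempty (Set.Ioo (-θ) (-θ + δ)) isOpen_Ioo
    ⟨-θ + δ / 2, by constructor <;> linarith⟩
  obtain ⟨i, j, hij⟩ := AddSubgroup.mem_closure_pair.mp hxc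
  rw [zsmul_eq_mul, zsmul_eq_mul] at hij
  have hφx : ((i * m + 1 : ℤ) : ℝ) * θ + j * Real.pi = x + θ := by
    rw [← hij]; push_cast; ring
  obtain ⟨G1, G2, h1, h2, h3, h4⟩ := realize ha hcop hN M0 (i * m + 1) j
    (by rw [← hθ, hφx]; linarith [hxI.1]) (by rw [← hθ, hφx]; linarith [hxI.2])
  refine ⟨(i * m + 1).natAbs, G1, G2, h1, h2, h3, h4, i, ?_⟩
  rcases Int.natAbs_eq (i * m + 1) with h | h
  · left; exact h.symm
  · right; omega

end Pool.Agent.H222R3.TV
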