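import Pool.Agent.H359R3.Exist

/-! Products of two primes represented by `x² + a y²`. -/

set_option autoImplicit false

namespace Pool.Agent.H222R3.TV

/-- Thue's lemma for the form `x² + a y²` -/
lemma thue (a q : ℕ) (ha : 1 ≤ a) (hq : q.Prime) (hqa : a < q) (t : ℤ)
    (ht : (q : ℤ) ∣ t ^ 2 + a) :
    ∃ x y : ℤ, ∃ k : ℕ, 1 ≤ k ∧ k ≤ a + 1 ∧ x ^ 2 + a * y ^ 2 = k * q := by
  classical
  have : NeZero q := ⟨hq.ne_zero⟩
  set r := Nat.sqrt q with hr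
  let S : Finset (ℕ × ℕ) := Finset.range (r + 1) ×ˢ Finset.range (r + 1)
  let φ : ℕ × ℕ → ZMod q := fun p => ((((p.1 : ℤ) - t * p.2 : ℤ)) : ZMod q)
  have hcard : (Finset.univ : Finset (ZMod q)).card < S.card := by
    rw [Finset.card_univ, ZMod.card]
    simp only [S, Finset.card_product, Finset.card_range]
    exact Nat.lt_succ_sqrt _
  obtain ⟨p1, hp1, p2, hp2, hne, heq⟩ := Finset.exists_ne_map_eq_of_card_lt_of_maps_to hcard
    (f := φ) (fun _ _ => Finset.mem_univ _)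
  simp only [S, Finset.mem_product, Finset.mem_range] at hp1 hp2
  obtain ⟨x1, y1⟩ := p1
  obtain ⟨x2, y2⟩ := p2
  simp only [φ] at heq hp1 hp2
  set x : ℤ := (x1 : ℤ) - x2 with hx
  set y : ℤ := (y1 : ℤ) - y2 with hy
  have hqx : (q : ℤ) ∣ x - t * y := by
    rw [← ZMod.intCast_zmod_eq_zero_iff_dvd]
    have : x - t * y = ((x1 : ℤ) - t * y1) - ((x2 : ℤ) - t * y2) := by rw [hx, hy]; ring
    rw [this, Int.cast_sub, heq, sub_self]
  have hnz : ¬ (x = 0 ∧ y = 0) := by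
    rintro ⟨h1, h2⟩
    apply hne
    have e1 : x1 = x2 := by omega
    have e2 : y1 = y2 := by omega
    rw [e1, e2]
  have hrr : ((r * r : ℕ) : ℤ) ≤ ((q : ℕ) : ℤ) := by exact_mod_cast Nat.sqrt_le q
  push_cast at hrr
  have hxle : x ^ 2 ≤ q := by
    have h3 : x ^ 2 ≤ (r : ℤ) ^ 2 := sq_le_sq' (by omega) (by omega)
    nlinarith
  have hyle : y ^ 2 ≤ q := by
    have h3 : y ^ 2 ≤ (r : ℤ) ^ 2 := sq_le_sq' (by omega) (by omega)
    nlinarith
  have hdvd : (q : ℤ) ∣ x ^ 2 + a * y ^ 2 := by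
    have : x ^ 2 + a * y ^ 2 = (x - t * y) * (x + t * y) + (t ^ 2 + a) * y ^ 2 := by ring
    rw [this]
    exact dvd_add (hqx.mul_right _) (ht.mul_right _)
  obtain ⟨k, hk⟩ := hdvd
  have hqpos : (0 : ℤ) < q := by exact_mod_cast hq.pos
  have haZ : (1 : ℤ) ≤ a := by exact_mod_cast ha
  have hpos : 0 < x ^ 2 + a * y ^ 2 := by
    rcases eq_or_ne x 0 with h | h
    · have hy0 : y ≠ 0 := fun h' => hnz ⟨h, h'⟩
      have : 0 < y ^ 2 := by positivity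
      nlinarith [sq_nonneg x]
    · have : 0 < x ^ 2 := by positivity
      nlinarith [sq_nonneg y]
  have hkpos : 0 < k := by
    rw [hk] at hpos
    exact (mul_pos_iff_of_pos_left hqpos).mp hpos
  have hkle : k ≤ a + 1 := by
    have h1 : (q : ℤ) * k ≤ q * (a + 1) := by
      rw [← hk]
      nlinarith
    exact le_of_mul_le_mul_left h1 hqpos
  refine ⟨x, y, k.toNat, by omega, by omega, ?_⟩
  rw [hk, Int.toNat_of_nonneg hkpos.le]
  ring

/-- In every infinite set of primes `≡ 1 (mod 4a)` there are two whose product is `s² + a t²`. -/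
theorem exists_pair (a : ℕ) (ha : 1 ≤ a) (P : Set ℕ) (hP : P.Infinite)
    (hPp : ∀ q ∈ P, q.Prime ∧ q % (4 * a) = 1) :
    ∃ q1 ∈ P, ∃ q2 ∈ P, q1 ≠ q2 ∧ ∃ s t : ℕ, s ^ 2 + a * t ^ 2 = q1 * q2 ∧
      Nat.Coprime (s ^ 2 + a * t ^ 2) (2 * s * t) := by
  classical
  set P' : Set ℕ := P \ Set.Iic (a + 1) with hP'
  have hP'inf : P'.Infinite := hP.sdiff (Set.finite_Iic _)
  have hdata : ∀ q ∈ P', ∃ x y : ℤ, ∃ k : ℕ, 1 ≤ k ∧ k ≤ a + 1 ∧ x ^ 2 + a * y ^ 2 = k * q := by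
    intro q hq
    obtain ⟨hqP, hqa⟩ := hq
    rw [Set.mem_Iic, not_le] at hqa
    obtain ⟨hp, hmod⟩ := hPp q hqP
    obtain ⟨t, ht⟩ := H359R3.exists_sqrt_mod (-(a : ℤ)) q hp (by simpa using hmod)
      (by omega) (by
        intro h
        have h2 : (q : ℤ) ∣ (a : ℤ) := (dvd_neg).mp h
        have h3 : q ∣ a := by exact_mod_cast h2
        have := Nat.le_of_dvd (by omega) h3
        omega)
    exact thue a q ha hp (by omega) t (by simpa using ht)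
  choose! x y k hk1 hk2 hk3 using hdata
  set L := (a + 1).factorial with hL
  have : NeZero L := ⟨Nat.factorial_ne_zero _⟩
  let c : ℕ → ℕ × ZMod L × ZMod L := fun q => (k q, ((x q : ℤ) : ZMod L), ((y q : ℤ) : ZMod L))
  have hmaps : Set.MapsTo c P' (Set.Iic (a + 1) ×ˢ (Set.univ : Set (ZMod L × ZMod L))) := by
    intro q hq
    exact ⟨hk2 q hq, Set.mem_univ _⟩
  obtain ⟨q1, hq1, q2, hq2, hne, hc⟩ := hP'inf.exists_ne_map_eq_of_mapsTo hmaps
    ((Set.finite_Iic _).prod Set.finite_univ)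
  simp only [c, Prod.mk.injEq] at hc
  obtain ⟨c1, c2, c3⟩ := hc
  have hkL : k q1 ∣ L := Nat.dvd_factorial (by have := hk1 q1 hq1; omega) (hk2 q1 hq1)
  have hkL' : ((k q1 : ℕ) : ℤ) ∣ (L : ℤ) := by exact_mod_cast hkL
  have dx : ((k q1 : ℕ) : ℤ) ∣ x q1 - x q2 := by
    refine hkL'.trans ?_
    rw [← ZMod.intCast_zmod_eq_zero_iff_dvd, Int.cast_sub, c2, sub_self]
  have dy : ((k q1 : ℕ) : ℤ) ∣ y q1 - y q2 := by
    refine hkL'.trans ?_
    rw [← ZMod.intCast_zmod_eq_zero_iff_dvd, Int.cast_sub, c3, sub_self]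
  have e1 := hk3 q1 hq1
  have e2 := hk3 q2 hq2
  rw [← c1] at e2
  have hkpos := hk1 q1 hq1
  set K : ℤ := ((k q1 : ℕ) : ℤ) with hK
  have hK0 : K ≠ 0 := by rw [hK]; exact_mod_cast (by omega : k q1 ≠ 0)
  have dX : K ∣ x q1 * x q2 + a * (y q1 * y q2) := by
    have h : x q1 * x q2 + a * (y q1 * y q2) = K * q1 - x q1 * (x q1 - x q2) -
        a * y q1 * (y q1 - y q2) := by rw [← e1]; ring
    rw [h]
    exact dvd_sub (dvd_sub (Dvd.intro _ rfl) (dx.mul_left _)) (dy.mul_left _)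
  have dY : K ∣ x q2 * y q1 - x q1 * y q2 := by
    have h : x q2 * y q1 - x q1 * y q2 = x q1 * (y q1 - y q2) - y q1 * (x q1 - x q2) := by ring
    rw [h]
    exact dvd_sub (dy.mul_left _) (dx.mul_left _)
  obtain ⟨X, hX⟩ := dX
  obtain ⟨Y, hY⟩ := dY
  have hnorm : X ^ 2 + a * Y ^ 2 = (q1 : ℤ) * q2 := by
    have h : K ^ 2 * (X ^ 2 + a * Y ^ 2) = K ^ 2 * ((q1 : ℤ) * q2) := by
      have h1 : K ^ 2 * (X ^ 2 + a * Y ^ 2) = (K * X) ^ 2 + a * (K * Y) ^ 2 := by ring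
      rw [h1, ← hX, ← hY]
      have h2 : (x q1 * x q2 + a * (y q1 * y q2)) ^ 2 + a * (x q2 * y q1 - x q1 * y q2) ^ 2 =
          (x q1 ^ 2 + a * y q1 ^ 2) * (x q2 ^ 2 + a * y q2 ^ 2) := by ring
      rw [h2, e1, e2]
      ring
    exact mul_left_cancel₀ (pow_ne_zero 2 hK0) h
  have hN : X.natAbs ^ 2 + a * Y.natAbs ^ 2 = q1 * q2 := by
    zify
    rw [sq_abs, sq_abs]
    exact hnorm
  obtain ⟨hq1P, hq1a⟩ := hq1
  obtain ⟨hq2P, hq2a⟩ := hq2
  rw [Set.mem_Iic, not_le] at hq1a hq2a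
  obtain ⟨hp1, hm1⟩ := hPp q1 hq1P
  obtain ⟨hp2, hm2⟩ := hPp q2 hq2P
  refine ⟨q1, hq1P, q2, hq2P, hne, X.natAbs, Y.natAbs, hN, ?_⟩
  set s := X.natAbs with hs
  set t := Y.natAbs with ht
  apply Nat.coprime_of_dvd
  intro l hl h1 h2
  rw [hN] at h1
  have hodd : ∀ q : ℕ, q % (4 * a) = 1 → q % 2 = 1 := by
    intro q h
    have h3 : q % (4 * a) % 2 = q % 2 := Nat.mod_mod_of_dvd q ⟨2 * a, by ring⟩
    rw [← h3, h]
  have hlq : l = q1 ∨ l = q2 := by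
    rcases hl.dvd_mul.mp h1 with h | h
    · exact Or.inl ((Nat.prime_dvd_prime_iff_eq hl hp1).mp h)
    · exact Or.inr ((Nat.prime_dvd_prime_iff_eq hl hp2).mp h)
  have hl2 : ¬ l ∣ 2 := by
    intro h
    have h3 := (Nat.prime_dvd_prime_iff_eq hl Nat.prime_two).mp h
    have h4 := hodd q1 hm1
    have h5 := hodd q2 hm2
    rcases hlq with h6 | h6 <;> omega
  have hla : ¬ l ∣ a := by
    intro h
    have := Nat.le_of_dvd (by omega) h
    rcases hlq with h6 | h6 <;> omega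
  have hboth : l ∣ s ∧ l ∣ t := by
    have h1' : l ∣ s ^ 2 + a * t ^ 2 := by rw [hN]; exact h1
    rcases hl.dvd_mul.mp h2 with h3 | h3
    · have h4 : l ∣ s := (hl.dvd_mul.mp h3).resolve_left hl2
      have h5 : l ∣ a * t ^ 2 := (Nat.dvd_add_right (dvd_pow h4 (by norm_num))).mp h1'
      exact ⟨h4, hl.dvd_of_dvd_pow ((hl.dvd_mul.mp h5).resolve_left hla)⟩
    · have h5 : l ∣ s ^ 2 := (Nat.dvd_add_left ((dvd_pow h3 (by norm_num)).mul_left a)).mp h1'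
      exact ⟨hl.dvd_of_dvd_pow h5, h3⟩
  have hsq : l ^ 2 ∣ q1 * q2 := by
    rw [← hN]
    exact dvd_add (pow_dvd_pow_of_dvd hboth.1 2) ((pow_dvd_pow_of_dvd hboth.2 2).mul_left a)
  rcases hlq with h | h
  · rw [h, sq] at hsq
    have h3 : q1 ∣ q2 := Nat.dvd_of_mul_dvd_mul_left hp1.pos hsq
    exact hne ((Nat.prime_dvd_prime_iff_eq hp1 hp2).mp h3)
  · rw [h, sq] at hsq
    have h3 : q2 ∣ q1 := Nat.dvd_of_mul_dvd_mul_right hp2.pos hsq
    exact hne ((Nat.prime_dvd_prime_iff_eq hp2 hp1).mp h3).symm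

/-- there are infinitely many primes `≡ 1 (mod 4a)` -/
theorem infinite_primes (a : ℕ) (ha : 1 ≤ a) : {q : ℕ | q.Prime ∧ q % (4 * a) = 1}.Infinite := by
  rw [Set.infinite_iff_exists_gt]
  intro n
  obtain ⟨q, hq, hqn, hqm⟩ := Nat.exists_prime_gt_modEq_one n (k := 4 * a) (by omega)
  refine ⟨q, ⟨hq, ?_⟩, hqn⟩
  have h1 : (1 : ℕ) % (4 * a) = 1 := Nat.mod_eq_of_lt (by omega)
  rw [Nat.ModEq, h1] at hqm
  exact hqm

end Pool.Agent.H222R3.TV
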