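import Pool.Agent.H222R3.TV.Main
import Pool.Agent.H222R3.TV.Exist

/-! Three values along `n² + a`: consequences. -/

set_option autoImplicit false

namespace Pool.Agent.H222R3.TV

open Finset

variable {H : Type} [AddCommGroup H]

/-- if `f q = h` for infinitely many primes `q ≡ 1 (mod 4a)` then `2h` is a value -/
theorem two_smul_mem (a : ℕ) (ha : 1 ≤ a) (f : ℕ → H)
    (hf : ∀ m n : ℕ, m ≠ 0 → n ≠ 0 → f (m * n) = f m + f n) (h : H)
    (hinf : {q : ℕ | q.Prime ∧ q % (4 * a) = 1 ∧ f q = h}.Infinite) : 2 • h ∈ Vals a f := by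
  obtain ⟨q1, hq1, q2, hq2, -, s, t, hN, hcop⟩ := exists_pair a ha _ hinf
    (fun q hq => ⟨hq.1, hq.2.1⟩)
  refine ⟨s, t, hcop, ?_, ?_⟩
  · rw [hN]
    have := hq1.1.two_le
    have := hq2.1.two_le
    nlinarith
  · rw [hN, hf _ _ hq1.1.ne_zero hq2.1.ne_zero, hq1.2.2, hq2.2.2, two_smul]

theorem card_of_four [Finite H] (a : ℕ) (f : ℕ → H) (h : H) (h4 : 4 • h ≠ 0)
    (hmem : 2 • h ∈ Vals a f) : 3 ≤ Nat.card (AddSubgroup.closure (Vals a f)) := by
  have hle : AddSubgroup.zmultiples (2 • h) ≤ AddSubgroup.closure (Vals a f) := by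
    rw [AddSubgroup.zmultiples_le]
    exact AddSubgroup.subset_closure hmem
  have h3 : Nat.card (AddSubgroup.zmultiples (2 • h)) ≤
      Nat.card (AddSubgroup.closure (Vals a f)) :=
    Nat.card_le_card_of_injective _ (AddSubgroup.inclusion_injective hle)
  rw [Nat.card_zmultiples] at h3
  refine le_trans ?_ h3
  by_contra hcon
  push Not at hcon
  have hpos : 0 < addOrderOf (2 • h) := addOrderOf_pos _
  have hdvd : addOrderOf (2 • h) ∣ 2 := by
    interval_cases addOrderOf (2 • h)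
    · exact one_dvd 2
    · exact dvd_rfl
  apply h4
  have := addOrderOf_dvd_iff_nsmul_eq_zero.mp hdvd
  rw [← mul_smul] at this
  exact this

/-- values modulo three of `Ω (n² + a)` -/
theorem omega_mod_three (a : ℕ) (ha : 1 ≤ a) (r : ℕ) (hr : r < 3) :
    Often a (fun n => ((ArithmeticFunction.cardFactors n : ℕ) : ZMod 3)) (r : ZMod 3) := by
  set f : ℕ → ZMod 3 := fun n => ((ArithmeticFunction.cardFactors n : ℕ) : ZMod 3) with hfdef
  have hf : ∀ m n : ℕ, m ≠ 0 → n ≠ 0 → f (m * n) = f m + f n := by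
    intro m n hm hn
    simp only [hfdef]
    rw [ArithmeticFunction.cardFactors_mul hm hn]
    push_cast
    rfl
  have hinf : {q : ℕ | q.Prime ∧ q % (4 * a) = 1 ∧ f q = 1}.Infinite := by
    refine (infinite_primes a ha).mono ?_
    rintro q ⟨hq, hm⟩
    refine ⟨hq, hm, ?_⟩
    simp only [hfdef]
    rw [ArithmeticFunction.cardFactors_apply_prime hq]
    simp
  have hmem := two_smul_mem a ha f hf 1 hinf
  have hcard := card_of_four a f (1 : ZMod 3) (by decide) hmem
  obtain ⟨S, hS, hO⟩ := three_values a ha f hf hcard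
  have huniv : S = Finset.univ := by
    apply Finset.eq_univ_of_card
    rw [hS, ZMod.card]
  exact hO _ (by rw [huniv]; exact Finset.mem_univ _)

end Pool.Agent.H222R3.TV
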