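import Pool.Agent.H222R3.TV.Rigid1
import Pool.Agent.H222R3.TV.Final

/-! At least three values of a completely additive function along `n² + n + C`, `C ≥ 1`. -/

set_option autoImplicit false

namespace Pool.Agent.H222R3.TV.Odd

open Finset H359R2 H359R3 H359R4

variable {H : Type*} [AddCommGroup H]

/-- the `n` in `(X,2X]` with `f(n^2+a) = h` and `n^2+a = s^2 m`, `m` squarefree, `s` small. -/
def GH (C : ℕ) (f : ℕ → H) (h : H) (X : ℕ) : Set ℕ :=
  {n : ℕ | X < n ∧ n ≤ 2 * X ∧ f (n ^ 2 + n + C) = h ∧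
    ∃ s m : ℕ, n ^ 2 + n + C = s ^ 2 * m ∧ Squarefree m ∧ (s : ℝ) ≤ Real.log X ^ 45}

lemma GH_finite (C : ℕ) (f : ℕ → H) (h : H) (X : ℕ) : (GH C f h X).Finite := by
  apply Set.Finite.subset (Set.finite_Icc 0 (2 * X))
  intro n hn
  exact ⟨Nat.zero_le _, hn.2.1⟩

/-- values taken often -/
def Often (C : ℕ) (f : ℕ → H) (h : H) : Prop :=
  ∀ X0 : ℕ, ∃ X : ℕ, X0 ≤ X ∧ (X : ℝ) / Real.log X ^ 41 ≤ ((GH C f h X).ncard : ℝ)

lemma PP_eq (C n : ℕ) : PP 1 C n = n ^ 2 + n + C := by unfold PP; ring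

noncomputable def K1 (C : ℕ) : ℝ := (DD 1 C : ℝ)

noncomputable def K2 (C : ℕ) : ℝ :=
  ((DD 1 C : ℝ) * (2 + ((1 : ℕ) : ℝ) + C) + 1) * (2 + ((1 : ℕ) : ℝ) + C) ^ 2

lemma K1_nonneg (C : ℕ) : 0 ≤ K1 C := by unfold K1; positivity

lemma K2_nonneg (C : ℕ) : 0 ≤ K2 C := by unfold K2; positivity

open Classical in
lemma cnt_le4 [Fintype H] (C : ℕ) (ha : 1 ≤ C) (f : ℕ → H) (V : Finset H) (X Z : ℕ) (hX : 3 ≤ X) :
    (cnt {n | f (PP 1 C n) ∉ V} X : ℝ) ≤ ∑ h ∈ Vᶜ, ((GH C f h X).ncard : ℝ) +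
      (K1 C * X * (1 + Real.log Z) ^ 4 / (Real.log X ^ 45) + K1 C * Z * (1 + Real.log Z) ^ 4 +
        K2 C * (X : ℝ) ^ 2 / (Z + 1) ^ 2) := by
  have hlog : 0 < Real.log X := Real.log_pos (by exact_mod_cast (by omega : 1 < X))
  have h1 := card_large_square 1 C X Z (Real.log X ^ 45) ha (by omega) (by omega)
    (by positivity)
  set L := (Finset.Ioc X (X + X)).filter (fun n => ∃ s : ℕ, Real.log X ^ 45 < s ∧ s ^ 2 ∣ PP 1 C n)
    with hL
  have h1' : (L.card : ℝ) ≤ K1 C * X * (1 + Real.log Z) ^ 4 / (Real.log X ^ 45) +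
      K1 C * Z * (1 + Real.log Z) ^ 4 + K2 C * (X : ℝ) ^ 2 / (Z + 1) ^ 2 := h1
  have hsub : (Finset.Ioc X (X + X)).filter (fun n => n ∈ {n | f (PP 1 C n) ∉ V}) ⊆
      (Vᶜ.biUnion (fun h => (GH_finite C f h X).toFinset)) ∪ L := by
    intro n hn
    rw [Finset.mem_filter, Finset.mem_Ioc, Set.mem_ofPred_eq] at hn
    obtain ⟨⟨hn1, hn2⟩, hfn⟩ := hn
    obtain ⟨m, s, hms, hm⟩ := Nat.sq_mul_squarefree (PP 1 C n)
    rw [Finset.mem_union, Finset.mem_biUnion]
    by_cases hs : (s : ℝ) ≤ Real.log X ^ 45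
    · left
      refine ⟨f (PP 1 C n), by rw [Finset.mem_compl]; exact hfn, ?_⟩
      rw [Set.Finite.mem_toFinset]
      refine ⟨hn1, by omega, by rw [PP_eq], s, m, ?_, hm, hs⟩
      rw [← PP_eq, hms]
    · right
      rw [hL, Finset.mem_filter, Finset.mem_Ioc]
      push Not at hs
      exact ⟨⟨hn1, hn2⟩, s, hs, ⟨m, hms.symm⟩⟩
  have h2 : cnt {n | f (PP 1 C n) ∉ V} X ≤ ∑ h ∈ Vᶜ, (GH C f h X).ncard + L.card := by
    unfold cnt
    have h3 := (Finset.card_le_card hsub).trans (Finset.card_union_le _ _)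
    have h4 : (Vᶜ.biUnion (fun h => (GH_finite C f h X).toFinset)).card ≤
        ∑ h ∈ Vᶜ, (GH C f h X).ncard := by
      refine Finset.card_biUnion_le.trans (le_of_eq ?_)
      apply Finset.sum_congr rfl
      intro h _
      rw [Set.ncard_eq_toFinset_card _ (GH_finite C f h X)]
    refine le_trans (le_of_eq ?_) (h3.trans (Nat.add_le_add_right h4 _))
    congr
  have h4 : (cnt {n | f (PP 1 C n) ∉ V} X : ℝ) ≤
      ∑ h ∈ Vᶜ, ((GH C f h X).ncard : ℝ) + (L.card : ℝ) := by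
    exact_mod_cast h2
  linarith

open Classical in
/-- If at most two values are taken often then the other values have summable weights. -/
lemma summable_of_not_often [Fintype H] (C : ℕ) (ha : 1 ≤ C) (f : ℕ → H) (V : Finset H)
    (hV : ∀ h, h ∉ V → ¬ Often C f h) :
    Summable (wtK 1 C {n | f (PP 1 C n) ∉ V}) := by
  unfold Often at hV
  push Not at hV
  have hX : ∃ X0 : ℕ, ∀ h, h ∉ V → ∀ X, X0 ≤ X →
      ((GH C f h X).ncard : ℝ) < X / Real.log X ^ 41 := by
    choose! x hx using hV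
    refine ⟨Finset.univ.sup x, ?_⟩
    intro h hh X hX
    exact hx h hh X ((Finset.le_sup (Finset.mem_univ h)).trans hX)
  obtain ⟨X0, hX0⟩ := hX
  have hK1 := K1_nonneg C
  have hK2 := K2_nonneg C
  set c : ℝ := (Fintype.card H : ℝ) + (16 * K1 C + 16 * K1 C + K2 C) + 1 with hc
  have hcpos : 0 < c := by positivity
  have hev : ∀ᶠ x : ℝ in Filter.atTop, ‖Real.log x ^ 133‖ ≤ 1 * ‖id x‖ :=
    Real.isLittleO_pow_log_id_atTop.bound (by norm_num)
  have hev2 : ∀ᶠ x : ℝ in Filter.atTop, c ≤ Real.log x :=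
    Real.tendsto_log_atTop.eventually_ge_atTop _
  obtain ⟨x1, hx1⟩ := Filter.eventually_atTop.mp (hev.and hev2)
  apply summable_of_sparse2 1 C (by omega) ha _ (max X0 (⌈x1⌉₊ + 3))
  intro X hX
  have hXX0 : X0 ≤ X := (le_max_left _ _).trans hX
  have hX1 : ⌈x1⌉₊ + 3 ≤ X := (le_max_right _ _).trans hX
  have hxX : x1 ≤ (X : ℝ) := by
    calc x1 ≤ (⌈x1⌉₊ : ℝ) := Nat.le_ceil _
      _ ≤ X := by exact_mod_cast (by omega : ⌈x1⌉₊ ≤ X)
  obtain ⟨hA, hB⟩ := hx1 X hxX
  set L := Real.log X with hL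
  have hL1 : 1 ≤ L := by
    have : (0 : ℝ) ≤ Fintype.card H := by positivity
    rw [hc] at hB
    linarith
  have hLpos : 0 < L := by linarith
  have hXpos : (0 : ℝ) < X := by exact_mod_cast (by omega : 0 < X)
  rw [id, Real.norm_of_nonneg (by positivity), Real.norm_of_nonneg hXpos.le, one_mul] at hA
  set Z := ⌊(X : ℝ) / L ^ 46⌋₊ with hZ
  have hZle : (Z : ℝ) ≤ X / L ^ 46 := Nat.floor_le (by positivity)
  have hZgt : (X : ℝ) / L ^ 46 < Z + 1 := Nat.lt_floor_add_one _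
  have hZX : (Z : ℝ) ≤ X := by
    refine hZle.trans ?_
    rw [div_le_iff₀ (by positivity)]
    have : (1 : ℝ) ≤ L ^ 46 := one_le_pow₀ (by linarith)
    nlinarith
  have hlogZ : 1 + Real.log Z ≤ 2 * L := by
    have h1 : Real.log Z ≤ L := by
      rcases Nat.eq_zero_or_pos Z with h | h
      · rw [h]; simp only [Nat.cast_zero, Real.log_zero]; linarith
      · exact Real.log_le_log (by exact_mod_cast h) hZX
    linarith
  have hlogZ0 : 0 ≤ 1 + Real.log Z := by
    have : 0 ≤ Real.log Z := Real.log_natCast_nonneg _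
    linarith
  have hpow : (1 + Real.log Z) ^ 4 ≤ 16 * L ^ 4 := by
    calc (1 + Real.log Z) ^ 4 ≤ (2 * L) ^ 4 := pow_le_pow_left₀ hlogZ0 hlogZ 4
      _ = 16 * L ^ 4 := by ring
  have hmain := cnt_le4 C ha f V X Z (by omega)
  rw [← hL] at hmain
  have hsumle : ∑ h ∈ Vᶜ, ((GH C f h X).ncard : ℝ) ≤ (Fintype.card H : ℝ) * (X / L ^ 41) := by
    calc ∑ h ∈ Vᶜ, ((GH C f h X).ncard : ℝ) ≤ ∑ h ∈ Vᶜ, (X / L ^ 41 : ℝ) := by
          apply Finset.sum_le_sum
          intro h hh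
          rw [Finset.mem_compl] at hh
          exact (hX0 h hh X hXX0).le
      _ = ((Vᶜ).card : ℝ) * (X / L ^ 41) := by rw [Finset.sum_const, nsmul_eq_mul]
      _ ≤ (Fintype.card H : ℝ) * (X / L ^ 41) := by
          apply mul_le_mul_of_nonneg_right _ (by positivity)
          exact_mod_cast Finset.card_le_univ _
  have t1 : K1 C * X * (1 + Real.log Z) ^ 4 / (L ^ 45) ≤ 16 * K1 C * (X / L ^ 41) := by
    calc K1 C * X * (1 + Real.log Z) ^ 4 / (L ^ 45) ≤ K1 C * X * (16 * L ^ 4) / (L ^ 45) := by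
          apply div_le_div_of_nonneg_right _ (by positivity)
          exact mul_le_mul_of_nonneg_left hpow (by positivity)
      _ = 16 * K1 C * (X / L ^ 41) := by field_simp
  have t2 : K1 C * Z * (1 + Real.log Z) ^ 4 ≤ 16 * K1 C * (X / L ^ 41) := by
    calc K1 C * Z * (1 + Real.log Z) ^ 4 ≤ K1 C * (X / L ^ 46) * (16 * L ^ 4) := by
          apply mul_le_mul _ hpow (by positivity) (by positivity)
          exact mul_le_mul_of_nonneg_left hZle (by positivity)
      _ = 16 * K1 C * (X / L ^ 41) / L := by field_simp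
      _ ≤ 16 * K1 C * (X / L ^ 41) := by
          apply div_le_self (by positivity)
          linarith
  have t3 : K2 C * (X : ℝ) ^ 2 / (Z + 1) ^ 2 ≤ K2 C * (X / L ^ 41) := by
    have h1 : (X / L ^ 46) ^ 2 ≤ ((Z : ℝ) + 1) ^ 2 :=
      pow_le_pow_left₀ (by positivity) hZgt.le 2
    calc K2 C * (X : ℝ) ^ 2 / (Z + 1) ^ 2 ≤ K2 C * (X : ℝ) ^ 2 / (X / L ^ 46) ^ 2 :=
          div_le_div_of_nonneg_left (by positivity) (by positivity) h1
      _ = K2 C * L ^ 92 := by field_simp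
      _ ≤ K2 C * (X / L ^ 41) := by
          apply mul_le_mul_of_nonneg_left _ hK2
          rw [le_div_iff₀ (by positivity)]
          calc L ^ 92 * L ^ 41 = L ^ 133 := by ring
            _ ≤ (X : ℝ) := hA
  have hXL : 0 ≤ (X : ℝ) / L ^ 41 := by positivity
  have hfin : (cnt {n | f (PP 1 C n) ∉ V} X : ℝ) ≤ c * (X / L ^ 41) := by
    have e1 : c * (X / L ^ 41) = (Fintype.card H : ℝ) * (X / L ^ 41) +
        (16 * K1 C * (X / L ^ 41) + 16 * K1 C * (X / L ^ 41) + K2 C * (X / L ^ 41)) +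
          X / L ^ 41 := by rw [hc]; ring
    rw [e1]
    refine hmain.trans ?_
    have := add_le_add hsumle (add_le_add (add_le_add t1 t2) t3)
    linarith
  calc (cnt {n | f (PP 1 C n) ∉ V} X : ℝ) ≤ c * (X / L ^ 41) := hfin
    _ = (c / L) * (X / L ^ 40) := by field_simp
    _ ≤ 1 * (X / L ^ 40) := by
        apply mul_le_mul_of_nonneg_right _ (by positivity)
        rw [div_le_one hLpos]; exact hB
    _ = X / L ^ 40 := one_mul _

open Classical in
/-- **Main theorem.** -/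
theorem three_values [Finite H] (C : ℕ) (hC : 1 ≤ C) (f : ℕ → H)
    (hf : ∀ m n : ℕ, m ≠ 0 → n ≠ 0 → f (m * n) = f m + f n)
    (hΓ : 3 ≤ Nat.card (AddSubgroup.closure (Vals (4 * C - 1) f))) :
    ∃ S : Finset H, S.card = 3 ∧ ∀ h ∈ S, Often C f h := by
  have haC : (4 * C - 1) + 1 = 4 * C := by omega
  set a := 4 * C - 1 with ha
  have := Fintype.ofFinite H
  set V : Finset H := Finset.univ.filter (fun h => Often C f h) with hV
  by_contra hcon
  push Not at hcon
  have hVc : V.card ≤ 2 := by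
    by_contra hc
    push Not at hc
    obtain ⟨S, hS, hS3⟩ := Finset.exists_subset_card_eq (s := V) (n := 3) (by omega)
    obtain ⟨h, hh, hno⟩ := hcon S hS3
    exact hno (Finset.mem_filter.mp (hS hh)).2
  have hsum := summable_of_not_often C hC f V (by
    intro h hh ho
    exact hh (Finset.mem_filter.mpr ⟨Finset.mem_univ _, ho⟩))
  -- all values have order at most two
  have h2 : ∀ x ∈ Vals a f, 2 • x = 0 := by
    rintro x ⟨s, t, hst, hN1, rfl⟩
    by_contra hne
    exact rigid3' C a hC haC f hf V hVc hsum s t hst hN1 (Fintype.card H) Fintype.card_pos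
      (card_nsmul_eq_zero) hne
  by_cases hex : ∃ x ∈ Vals a f, x ≠ 0
  · obtain ⟨x, hx, hx0⟩ := hex
    have hall : ∀ y ∈ Vals a f, y = 0 ∨ y = x := by
      intro y hy
      by_contra hc
      push Not at hc
      have h2x := h2 x hx
      have h2y := h2 y hy
      obtain ⟨s, t, hst, hN1, hfx⟩ := hx
      obtain ⟨s', t', hst', hN1', hfy⟩ := hy
      refine rigid22' C a hC haC f hf V hVc hsum s t s' t' hst hN1 hst' hN1' ?_ ?_ ?_ ?_ ?_
      · rw [hfx]; exact h2x
      · rw [hfy]; exact h2y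
      · rw [hfx]; exact hx0
      · rw [hfy]; exact hc.1
      · rw [hfx, hfy]; exact Ne.symm hc.2
    have hcl : AddSubgroup.closure (Vals a f) ≤ AddSubgroup.zmultiples x := by
      rw [AddSubgroup.closure_le]
      intro y hy
      rcases hall y hy with h | h
      · rw [h]; exact AddSubgroup.zero_mem _
      · rw [h]; exact AddSubgroup.mem_zmultiples _
    have h3 : Nat.card (AddSubgroup.closure (Vals a f)) ≤ Nat.card (AddSubgroup.zmultiples x) := by
      apply Nat.card_le_card_of_injective _ (AddSubgroup.inclusion_injective hcl)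
    rw [Nat.card_zmultiples] at h3
    have h4 : addOrderOf x ≤ 2 := Nat.le_of_dvd (by norm_num)
      (addOrderOf_dvd_of_nsmul_eq_zero (h2 x hx))
    omega
  · push Not at hex
    have hcl : AddSubgroup.closure (Vals a f) = ⊥ := by
      rw [AddSubgroup.closure_eq_bot_iff]
      intro x hx
      exact hex x hx
    rw [hcl] at hΓ
    simp at hΓ

/-- values modulo three of `Ω (n² + n + C)` -/
theorem omega_mod_three (C : ℕ) (hC : 1 ≤ C) (r : ℕ) :
    Often C (fun n => ((ArithmeticFunction.cardFactors n : ℕ) : ZMod 3)) (r : ZMod 3) := by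
  set f : ℕ → ZMod 3 := fun n => ((ArithmeticFunction.cardFactors n : ℕ) : ZMod 3) with hfdef
  have ha : 1 ≤ 4 * C - 1 := by omega
  have hf : ∀ m n : ℕ, m ≠ 0 → n ≠ 0 → f (m * n) = f m + f n := by
    intro m n hm hn
    simp only [hfdef]
    rw [ArithmeticFunction.cardFactors_mul hm hn]
    push_cast
    rfl
  have hinf : {q : ℕ | q.Prime ∧ q % (4 * (4 * C - 1)) = 1 ∧ f q = 1}.Infinite := by
    refine (infinite_primes (4 * C - 1) ha).mono ?_
    rintro q ⟨hq, hm⟩
    refine ⟨hq, hm, ?_⟩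
    simp only [hfdef]
    rw [ArithmeticFunction.cardFactors_apply_prime hq]
    simp
  have hmem := two_smul_mem (4 * C - 1) ha f hf 1 hinf
  have hcard := card_of_four (4 * C - 1) f (1 : ZMod 3) (by decide) hmem
  obtain ⟨S, hS, hO⟩ := three_values C hC f hf hcard
  have huniv : S = Finset.univ := by
    apply Finset.eq_univ_of_card
    rw [hS, ZMod.card]
  exact hO _ (by rw [huniv]; exact Finset.mem_univ _)

end Pool.Agent.H222R3.TV.Odd
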